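import Pool.Agent.Zk87.SW.Inter
import Pool.Agent.R956.K5
import Pool.Agent.N929.EG.Three
import Pool.Agent.N546.EG.CNT3
import Pool.Agent.H46R2.K3.EQ

/-!
# Self-avoiding walks on `ℤ³`: an intermediate value theorem for exponents and amplitudes

The normalised numbers of walks `c_n / μ^n` and the non-intersection probabilities `c_{2n} / c_n²`
cannot avoid any power law between two of their power laws; the limit points of the exponents form an
interval, and so do the limit points of the amplitudes along each parity class. An isolated limit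
point is the limit.
-/

set_option autoImplicit false

namespace Pool.Agent.Results.MP_794e6e_pr.IntermediateLaws

open Filter Topology

/-- the number of `n`-step self-avoiding walks on `ℤ³` from the origin -/
noncomputable def c (n : ℕ) : ℕ :=
  Nat.card {f : Fin (n + 1) → (Fin 3 → ℤ) // f 0 = 0 ∧ Function.Injective f ∧
    ∀ i : Fin n, ∑ j : Fin 3, |f i.succ j - f i.castSucc j| = 1}

/-- `P_n = c_{2n} / c_n²`, the probability that two independent `n`-step walks meet only at their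
common starting point -/
noncomputable def P (n : ℕ) : ℝ := (c (2 * n) : ℝ) / (c n : ℝ) ^ 2

/-- `ρ_K(n) = n^(-1/3) exp (K (log log n)²)` -/
noncomputable def rho (K : ℝ) (n : ℕ) : ℝ :=
  (n : ℝ) ^ (-(1 / 3) : ℝ) * Real.exp (K * Real.log (Real.log n) ^ 2)

/-- the exponent at length `n`: `log (x n) / log n` -/
noncomputable def ex (x : ℕ → ℝ) (n : ℕ) : ℝ := Real.log (x n) / Real.log n

/-- the limit points of the exponents -/
def Exponents (x : ℕ → ℝ) : Set ℝ := {g | MapClusterPt g atTop (ex x)}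

/-- the limit points of `x n / n ^ a`, where `n` runs through the numbers of parity `p` -/
def Amplitudes (x : ℕ → ℝ) (a : ℝ) (p : ℕ) : Set ℝ :=
  {B | MapClusterPt B (atTop ⊓ 𝓟 {n : ℕ | n % 2 = p}) (fun n : ℕ => x n / (n : ℝ) ^ a)}

/-- the power law `x n ≈ B n ^ a` in windows: for infinitely many `n` of parity `p`,
`|x m / m ^ a - B| ≤ δ_j B` for `m = n + 2 j` and all `j` with `δ_j ≤ 1`, where
`δ_j = K (1 + |a|) (1 + j) ρ_K(n)` -/
def Law (x : ℕ → ℝ) (K a B : ℝ) (p : ℕ) : Prop :=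
  ∃ᶠ n : ℕ in atTop, n % 2 = p ∧ ∀ j : ℕ, K * (1 + |a|) * (1 + j) * rho K n ≤ 1 →
    |x (n + 2 * j) / ((n + 2 * j : ℕ) : ℝ) ^ a - B| ≤ K * (1 + |a|) * (1 + j) * rho K n * B

/-- (a) power laws for all exponents strictly between the extreme ones, with all amplitudes, along
both parities; (b) for every exponent, along each parity, power laws for all amplitudes strictly
between the extreme ones; (c), (d) the limit points of the exponents, and of the amplitudes along one
parity for a given exponent, form closed intervals; (e), (f) a limit point near which there are only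
countably many is the limit -/
def Intermediate (x : ℕ → ℝ) (K : ℝ) : Prop :=
  (∀ a ε : ℝ, 0 < ε → (∃ᶠ n in atTop, ex x n ≤ a - ε) → (∃ᶠ n in atTop, a + ε ≤ ex x n) →
    ∀ B : ℝ, 0 < B → ∀ p : ℕ, p ≤ 1 → Law x K a B p) ∧
  (∀ a B₁ B B₂ : ℝ, 0 < B → B₁ < B → B < B₂ → ∀ p : ℕ,
    (∃ᶠ n : ℕ in atTop, n % 2 = p ∧ x n / (n : ℝ) ^ a ≤ B₁) →
    (∃ᶠ n : ℕ in atTop, n % 2 = p ∧ B₂ ≤ x n / (n : ℝ) ^ a) → Law x K a B p) ∧
  (IsClosed (Exponents x) ∧ (Exponents x).OrdConnected) ∧
  (∀ (a : ℝ) (p : ℕ), IsClosed (Amplitudes x a p) ∧ (Amplitudes x a p).OrdConnected) ∧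
  (∀ g : ℝ, Tendsto (ex x) atTop (𝓝 g) ↔ g ∈ Exponents x ∧
    ∃ δ : ℝ, 0 < δ ∧ (Exponents x ∩ Set.Ioo (g - δ) (g + δ)).Countable) ∧
  (∀ a B : ℝ, 0 < B → ∀ p : ℕ, p ≤ 1 →
    (Tendsto (fun n : ℕ => x n / (n : ℝ) ^ a) (atTop ⊓ 𝓟 {n : ℕ | n % 2 = p}) (𝓝 B) ↔
      B ∈ Amplitudes x a p ∧ ∃ δ : ℝ, 0 < δ ∧
        (Amplitudes x a p ∩ Set.Ioo (B - δ) (B + δ)).Countable))

open Pool.Agent.Zk87.SW in
theorem facts : ∃ K C B₀ : ℝ, Sm (fun n => (c n : ℝ) / TH966.KO.μ ^ n) K C B₀ := by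
  have hcn : ∀ n, (c n : ℝ) = (TH966.KO.c n : ℝ) := fun n =>
    congrArg _ (Pool.Agent.H46R2.K3.P.card_eq n)
  have W := Pool.Agent.R956.K5.wk3
  obtain ⟨K, hK, h⟩ := Pool.Agent.N929.EG.count3 Pool.Agent.N546.EG.cnt3
  obtain ⟨C, hC, h⟩ := h 1 le_rfl
  obtain ⟨B, hB⟩ := W.par
  refine ⟨K, C, B, ⟨fun n => ?_, hK, hC.le, (abs_nonneg _).trans (hB 1 le_rfl), ?_, ?_⟩⟩
  · simp only [hcn]
    exact W.pos n
  · filter_upwards [eventually_ge_atTop 3] with n hn
    have h1 := h n hn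
    simp only [Finset.sum_range_succ, Finset.sum_range_zero, pow_zero, Nat.choose_zero_right,
      Nat.choose_self, pow_one, Nat.cast_one, one_mul, mul_one, mul_zero, add_zero, zero_add] at h1
    rw [abs_sub_comm]
    simp only [hcn]
    refine le_trans (le_of_eq ?_) h1
    congr 1
    show Real.log ((TH966.KO.c n : ℝ) / TH966.KO.μ ^ n) - _ = _
    ring_nf
  · filter_upwards [eventually_ge_atTop 1] with n hn
    simp only [hcn]
    exact hB n hn

/-- **Theorem.** Let `c_n` be the number of `n`-step self-avoiding walks on `ℤ³`, `μ = lim c_n^(1/n)`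
and `P_n = c_{2n} / c_n²`. There is `K` such that:
(1) the sequences `c_n / μ^n` and `P_n` have the intermediate value property;
(2) the asymptotic form of Q1 holds with the exponent `γ - 1 = a` and the amplitude `A > 0` if and
only if, for both parities `p`, `A` is a limit point of `c_n / (μ^n n^a)` along the `n` of parity `p`,
and there are only countably many such limit points near `A`;
(3) either `log (c_n / μ^n) / log n → ∞`, or it converges, or there is an interval of exponents `a`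
such that for every amplitude `B > 0` and each parity `c_n ≈ B μ^n n^a` holds in windows at infinitely
many lengths of this parity;
(4) the same for `P_n`, with `-∞` in place of `∞`. -/
theorem result : ∃ μ : ℝ, 77 / 20 ≤ μ ∧ μ ≤ 5 ∧
    Tendsto (fun n : ℕ => (c n : ℝ) ^ (1 / (n : ℝ))) atTop (𝓝 μ) ∧ ∃ K : ℝ, 0 < K ∧
    (Intermediate (fun n => (c n : ℝ) / μ ^ n) K ∧ Intermediate P K) ∧
    (∀ a A : ℝ, 0 < A →
      (Tendsto (fun n : ℕ => (c n : ℝ) / (μ ^ n * (n : ℝ) ^ a)) atTop (𝓝 A) ↔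
        ∀ p : ℕ, p ≤ 1 → A ∈ Amplitudes (fun n => (c n : ℝ) / μ ^ n) a p ∧
          ∃ δ : ℝ, 0 < δ ∧ (Amplitudes (fun n => (c n : ℝ) / μ ^ n) a p ∩
            Set.Ioo (A - δ) (A + δ)).Countable)) ∧
    (Tendsto (ex (fun n => (c n : ℝ) / μ ^ n)) atTop atTop ∨
      (∃ g, Tendsto (ex (fun n => (c n : ℝ) / μ ^ n)) atTop (𝓝 g)) ∨
      ∃ x y : ℝ, x < y ∧ ∀ a ∈ Set.Ioo x y, ∀ B : ℝ, 0 < B → ∀ p : ℕ, p ≤ 1 →
        Law (fun n => (c n : ℝ) / μ ^ n) K a B p) ∧
    (Tendsto (ex P) atTop atBot ∨ (∃ g, Tendsto (ex P) atTop (𝓝 g)) ∨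
      ∃ x y : ℝ, x < y ∧ ∀ a ∈ Set.Ioo x y, ∀ B : ℝ, 0 < B → ∀ p : ℕ, p ≤ 1 → Law P K a B p) := by
  have hcn : ∀ n, (c n : ℝ) = (TH966.KO.c n : ℝ) := fun n =>
    congrArg _ (Pool.Agent.H46R2.K3.P.card_eq n)
  obtain ⟨K, C, B₀, H⟩ := facts
  have hμ : (0 : ℝ) < TH966.KO.μ := by linarith [TH966.KO.mu_one]
  have hP : ∀ n, P n = (fun n => (c n : ℝ) / TH966.KO.μ ^ n) (2 * n) /
      (fun n => (c n : ℝ) / TH966.KO.μ ^ n) n ^ 2 := by
    intro n
    have h1 := H.pos n
    have h2 := pow_pos hμ n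
    have h3 : (0 : ℝ) < c n := by
      rw [hcn]
      exact TH966.KO.c_pos n
    simp only
    unfold P
    rw [show 2 * n = n + n by ring, pow_add]
    field_simp
  have HP := H.doub hP
  have hC := H.hC
  obtain ⟨K', hK'⟩ : ∃ K', K' = K + 64 * C + 8 := ⟨_, rfl⟩
  have hK := H.hK
  have i1 := H.inter (K' := K') (by linarith) (by linarith)
  have i2 := HP.inter (K' := K') (by linarith) (by linarith)
  refine ⟨TH966.KO.μ, TH966.KO.mu_ge, TH966.KO.mu_le, ?_, K', by linarith, ⟨i1, i2⟩, ?_, ?_, ?_⟩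
  · simp only [hcn]
    exact TH966.KO.tend
  · intro a A hA
    have h1 := fun p hp => i1.2.2.2.2.2 a A hA p hp
    have e : (fun n : ℕ => (c n : ℝ) / (TH966.KO.μ ^ n * (n : ℝ) ^ a)) =
        fun n : ℕ => (c n : ℝ) / TH966.KO.μ ^ n / (n : ℝ) ^ a := by
      funext n
      rw [div_div]
    rw [e, Pool.Agent.Zk87.SW.both]
    exact forall₂_congr h1
  · refine H.above (K' := K') (by linarith) (by linarith) (b := 0) ?_
    filter_upwards with n
    refine div_nonneg (Real.log_nonneg ?_) (Real.log_natCast_nonneg n)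
    show 1 ≤ (c n : ℝ) / TH966.KO.μ ^ n
    rw [hcn, one_le_div (pow_pos hμ n)]
    exact TH966.KO.mu_pow n
  · refine HP.below (K' := K') (by linarith) (by linarith) (b := 0) ?_
    filter_upwards with n
    refine div_nonpos_of_nonpos_of_nonneg (Real.log_nonpos (HP.pos n).le ?_)
      (Real.log_natCast_nonneg n)
    unfold P
    have h3 : (0 : ℝ) < c n := by
      rw [hcn]
      exact TH966.KO.c_pos n
    rw [div_le_one (by positivity), hcn, hcn]
    have := TH966.KO.c_add n n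
    rw [show 2 * n = n + n by ring, pow_two]
    exact_mod_cast this

end Pool.Agent.Results.MP_794e6e_pr.IntermediateLaws
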