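import Pool.Agent.Zk87.SW.Doub
import Pool.Agent.R956.K5
import Pool.Agent.H46R2.K3.EQ

/-!
# Self-avoiding walks on `ℤ³`: the power law for their numbers is a statement about the probability
# that two independent walks do not meet, at a sparse set of lengths

`P n = c (2 n) / c n ^ 2` is the probability that two independent uniform `n`-step self-avoiding walks
from the origin meet only there (reverse the first walk and append the second).
-/

set_option autoImplicit false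

namespace Pool.Agent.Results.MP_794e6e_pr.NonIntersectionLaw

open Filter Topology

/-- the number of `n`-step self-avoiding walks on `ℤ³` from the origin -/
noncomputable def c (n : ℕ) : ℕ :=
  Nat.card {f : Fin (n + 1) → (Fin 3 → ℤ) // f 0 = 0 ∧ Function.Injective f ∧
    ∀ i : Fin n, ∑ j : Fin 3, |f i.succ j - f i.castSucc j| = 1}

/-- `P_n = c_{2n} / c_n²` -/
noncomputable def P (n : ℕ) : ℝ := (c (2 * n) : ℝ) / (c n : ℝ) ^ 2

/-- the gaps of `S` are `o(√n)`, in both parity classes: for every `δ > 0` and all large `n`, the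
interval `[n, n + δ √n]` contains an element of `S` of the same parity as `n` -/
def Gaps (S : Set ℕ) : Prop :=
  ∀ δ : ℝ, 0 < δ → ∀ᶠ n : ℕ in atTop, ∃ m ∈ S, m % 2 = n % 2 ∧ n ≤ m ∧
    (m : ℝ) ≤ n + δ * Real.sqrt n

/-- the gaps of `S` are `o(√(n log n))` -/
def LogGaps (S : Set ℕ) : Prop :=
  ∀ δ : ℝ, 0 < δ → ∀ᶠ n : ℕ in atTop, ∃ m ∈ S, n ≤ m ∧
    (m : ℝ) ≤ n + δ * Real.sqrt (n * Real.log n)

lemma c_eq : (fun n => (c n : ℝ)) = fun n => (TH966.KO.c n : ℝ) := by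
  funext n
  exact congrArg _ (Pool.Agent.H46R2.K3.P.card_eq n)

/-- **Theorem.** Let `c_n` be the number of `n`-step self-avoiding walks on `ℤ³`, `μ = lim c_n^(1/n)`
and `P_n = c_{2n} / c_n²`.
(1) For all `γ` and `A > 0` the following are equivalent: `c_n / (μ^n n^(γ-1)) → A` (the statement of
Q1); `P_n n^(γ-1) → 2^(γ-1) / A`; the last statement for `n → ∞` in some set `S` with gaps `o(√n)` in
both parity classes; the same for every such set.
(2) For every set `S` with gaps `o(√(n log n))`, `log P_n / log n → 1 - γ` in `S` if and only if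
`log (c_n / μ^n) / log n → γ - 1` for all `n → ∞`.
(3) There is `K` with `∑_{N ≤ n < 2N} |log (P_{n+4} P_n / P_{n+2}²)| ≤ K` for all large `N`, and for
every `η > 0` and all large `N` all but at most `η N` of the `n ∈ [N, 2N)` satisfy
`|log (P_{n+2j} / P_n) - j log (P_{n+2} / P_n)| ≤ (K / η) j² / N` for all `j ≤ N / 2`. -/
theorem result : ∃ μ : ℝ, 77 / 20 ≤ μ ∧ μ ≤ 5 ∧
    Tendsto (fun n : ℕ => (c n : ℝ) ^ (1 / (n : ℝ))) atTop (𝓝 μ) ∧
    (∀ γ A : ℝ, 0 < A →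
      (Tendsto (fun n : ℕ => (c n : ℝ) / (μ ^ n * (n : ℝ) ^ (γ - 1))) atTop (𝓝 A) ↔
        Tendsto (fun n : ℕ => P n * (n : ℝ) ^ (γ - 1)) atTop (𝓝 (2 ^ (γ - 1) / A))) ∧
      (Tendsto (fun n : ℕ => (c n : ℝ) / (μ ^ n * (n : ℝ) ^ (γ - 1))) atTop (𝓝 A) ↔
        ∃ S : Set ℕ, Gaps S ∧ Tendsto (fun n : ℕ => P n * (n : ℝ) ^ (γ - 1)) (atTop ⊓ 𝓟 S)
          (𝓝 (2 ^ (γ - 1) / A))) ∧
      ∀ S : Set ℕ, Gaps S →
        (Tendsto (fun n : ℕ => (c n : ℝ) / (μ ^ n * (n : ℝ) ^ (γ - 1))) atTop (𝓝 A) ↔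
          Tendsto (fun n : ℕ => P n * (n : ℝ) ^ (γ - 1)) (atTop ⊓ 𝓟 S)
            (𝓝 (2 ^ (γ - 1) / A)))) ∧
    (∀ (γ : ℝ) (S : Set ℕ), LogGaps S →
      (Tendsto (fun n : ℕ => Real.log ((c n : ℝ) / μ ^ n) / Real.log n) atTop (𝓝 (γ - 1)) ↔
        Tendsto (fun n : ℕ => Real.log (P n) / Real.log n) (atTop ⊓ 𝓟 S) (𝓝 (1 - γ)))) ∧
    (∃ K : ℝ, 0 ≤ K ∧ ∀ᶠ N : ℕ in atTop,
      ∑ n ∈ Finset.Ico N (2 * N), |Real.log (P (n + 4) * P n / P (n + 2) ^ 2)| ≤ K) ∧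
    (∃ K : ℝ, 0 < K ∧ ∀ η : ℝ, 0 < η → ∀ᶠ N : ℕ in atTop,
      ({n : ℕ | N ≤ n ∧ n < 2 * N ∧ ∃ j : ℕ, 2 * j ≤ N ∧ K / η * (j : ℝ) ^ 2 / N <
        |Real.log (P (n + 2 * j) / P n) - j * Real.log (P (n + 2) / P n)|}.ncard : ℝ) ≤
      η * N) := by
  have hc := c_eq
  have hcn : ∀ n, (c n : ℝ) = (TH966.KO.c n : ℝ) := fun n => congrFun hc n
  have W : Pool.Agent.Y943.SL.Wk (fun n => (c n : ℝ)) TH966.KO.μ := by
    rw [hc]
    exact Pool.Agent.R956.K5.wk3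
  have hbv : ∀ s : ℕ, s ≤ 1 → Pool.Agent.R956.K6.Bv (fun k => Real.log (P (2 * k + s))) :=
    fun s hs => Pool.Agent.R956.K8.bv_P W hs
  have hpos : ∀ n, 0 < P n := fun n => by
    have h1 : (0 : ℝ) < c n := W.cpos n
    have h2 : (0 : ℝ) < c (2 * n) := W.cpos (2 * n)
    unfold P
    positivity
  have hev := Filter.Eventually.of_forall (f := atTop) hpos
  refine ⟨TH966.KO.μ, TH966.KO.mu_ge, TH966.KO.mu_le, ?_, fun γ A hA => ?_, fun γ S hS => ?_,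
    Pool.Agent.R956.K9.tv hev hbv, Pool.Agent.R956.K7.lin hev hbv⟩
  · simp only [hcn]
    exact TH966.KO.tend
  · obtain ⟨h1, h2⟩ := Pool.Agent.Zk87.SW.law_iff W (a := γ - 1) hA
    exact ⟨h1, h2, fun S hS => ⟨fun h => (h1.1 h).mono_left inf_le_left,
      fun h => h2.2 ⟨S, hS, h⟩⟩⟩
  · have := Pool.Agent.Zk87.SW.expo_iff W (a := γ - 1) hS
    rw [show -(γ - 1) = 1 - γ by ring] at this
    exact this

end Pool.Agent.Results.MP_794e6e_pr.NonIntersectionLaw
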