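import Pool.Agent.Zk60.SW.B
import Pool.Agent.R956.Z3

/-!
# Self-avoiding walks on `ℤ³`: the oscillation of `c_{n+1} / c_n` with the parity of `n`

`c n` is the number of `n`-step self-avoiding walks from `0`, `z m` the number of closed walks with `m`
steps from `0` to `0` which are self-avoiding apart from this (rooted oriented polygons); `z m = 0`
for odd `m`.

Proof idea. Let `e`, `e'` be the numbers of one-step continuations of a walk `ω` at its end point and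
at its starting point. The sum over the `n`-step walks of `e`, and that of `e'`, is `c_{n+1}`, and that
of `e e'` is `c_{n+2}`, except that the two new points may coincide, which happens `z_{n+2}` times.
Since `(5 - e) (5 - e') ≥ 0`, this gives `10 c_{n+1} ≤ 25 c_n + c_{n+2} + z_{n+2}`. By the ratio limit
theorem `c_{n+2} / c_n → μ²` the one-step bound `c_{n+1} / (μ c_n) ≤ 5 / μ` is improved to
`(5 / μ + μ / 5) / 2 = 1 + (5 - μ)² / (10 μ)`.
-/

set_option autoImplicit false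

namespace Pool.Agent.Results.MP_794e6e_pr.ParityOscillation

open Filter Topology

/-- the number of `n`-step self-avoiding nearest-neighbour walks on `ℤ³` from `0` -/
noncomputable def c (n : ℕ) : ℕ :=
  Nat.card {f : Fin (n + 1) → (Fin 3 → ℤ) //
    f 0 = 0 ∧ Function.Injective f ∧
    ∀ i : Fin n, ∑ j : Fin 3, |f i.succ j - f i.castSucc j| = 1}

/-- the number of nearest-neighbour walks on `ℤ³` with `m` steps from `0` to `0` whose first `m`
points are distinct -/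
noncomputable def z (m : ℕ) : ℕ :=
  {f : Fin (m + 1) → (Fin 3 → ℤ) | f 0 = 0 ∧ f (Fin.last m) = 0 ∧
    (∀ i j : Fin m, f i.castSucc = f j.castSucc → i = j) ∧
    ∀ i : Fin m, ∑ j : Fin 3, |f i.succ j - f i.castSucc j| = 1}.ncard

theorem c_eq (n : ℕ) : c n = TH966.KO.c n := Pool.Agent.H46R2.K3.P.card_eq n

theorem basic (n : ℕ) (hn : 1 ≤ n) : 10 * c (n + 1) ≤ 25 * c n + c (n + 2) + z (n + 2) := by
  have h1 := Pool.Agent.Zk60.SW.basic n hn
  have h2 := Pool.Agent.Zk60.SW.card_CS_le (n + 2) (by omega)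
  have h3 : z (n + 2) = {f | Pool.Agent.Zk60.SW.ClosedWalk (n + 2) f}.ncard := rfl
  rw [c_eq, c_eq, c_eq]
  omega

theorem z_odd (m : ℕ) (hm : Odd m) : z m = 0 := by
  have h3 : z m = {f | Pool.Agent.Zk60.SW.ClosedWalk m f}.ncard := rfl
  rw [h3, Pool.Agent.Zk60.SW.odd_empty m hm, Set.ncard_empty]

/-- an elementary fact about sequences -/
theorem seq {c z : ℕ → ℝ} {μ : ℝ} (hμ : 0 < μ) (hc : ∀ n, 0 < c n)
    (hb : ∀ n, 1 ≤ n → 10 * c (n + 1) ≤ 25 * c n + c (n + 2) + z (n + 2))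
    (hr : Tendsto (fun n : ℕ => c (n + 2) / c n) atTop (𝓝 (μ ^ 2))) (δ : ℝ) (hδ : 0 < δ) :
    ∀ᶠ n : ℕ in atTop, c (n + 1) / (μ * c n) ≤
      (5 / μ + μ / 5) / 2 + δ + z (n + 2) / (10 * μ * c n) := by
  have h1 := hr.eventually (gt_mem_nhds (show μ ^ 2 < μ ^ 2 + 10 * μ * δ by
    have : 0 < 10 * μ * δ := by positivity
    linarith))
  filter_upwards [h1, eventually_ge_atTop 1] with n h2 hn
  have h3 := hb n hn
  have hcn := hc n
  rw [div_lt_iff₀ hcn] at h2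
  have e1 : (5 / μ + μ / 5) / 2 + δ + z (n + 2) / (10 * μ * c n) =
      (25 * c n + (μ ^ 2 + 10 * μ * δ) * c n + z (n + 2)) / (10 * (μ * c n)) := by
    field_simp
    ring
  have e2 : c (n + 1) / (μ * c n) = 10 * c (n + 1) / (10 * (μ * c n)) := by
    field_simp
  rw [e1, e2]
  refine div_le_div_of_nonneg_right ?_ (by positivity)
  linarith

/-- from an upper bound for `c (n + 2) / c (n + 1)` to a lower bound for `c (n + 1) / c n` -/
theorem inv_bound {μ R : ℝ} (hμ : 0 < μ) (hR : 0 < R) (δ : ℝ) (hδ : 0 < δ) :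
    ∃ ε : ℝ, 0 < ε ∧ ∀ x y w : ℝ, 0 < x → 0 < y → 0 < w → μ ^ 2 - ε ≤ w / x → w / (μ * y) ≤ R + ε →
      1 / R - δ ≤ y / (μ * x) := by
  have hcont : Tendsto (fun ε : ℝ => (μ ^ 2 - ε) / (μ ^ 2 * (R + ε))) (𝓝[>] 0) (𝓝 (1 / R)) := by
    have h : Tendsto (fun ε : ℝ => (μ ^ 2 - ε) / (μ ^ 2 * (R + ε))) (𝓝 0)
        (𝓝 ((μ ^ 2 - 0) / (μ ^ 2 * (R + 0)))) := by
      refine Tendsto.div (tendsto_const_nhds.sub tendsto_id)
        (tendsto_const_nhds.mul (tendsto_const_nhds.add tendsto_id)) ?_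
      simp only [add_zero]
      positivity
    have e : (μ ^ 2 - 0) / (μ ^ 2 * (R + 0)) = 1 / R := by
      field_simp
      ring
    rw [e] at h
    exact h.mono_left nhdsWithin_le_nhds
  have h1 := hcont.eventually (lt_mem_nhds (show 1 / R - δ < 1 / R by linarith))
  obtain ⟨ε, h2, hε⟩ := (h1.and self_mem_nhdsWithin).exists
  have hε0 : 0 < ε := hε
  refine ⟨ε, hε0, fun x y w hx hy hw hwx hwy => ?_⟩
  refine h2.le.trans ?_
  rw [div_le_div_iff₀ (by positivity) (by positivity)]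
  rw [le_div_iff₀ hx] at hwx
  rw [div_le_iff₀ (by positivity)] at hwy
  have h3 : (μ ^ 2 - ε) * x ≤ (R + ε) * (μ * y) := hwx.trans hwy
  nlinarith

/-- **Theorem.** (1) `10 c_{n+1} ≤ 25 c_n + c_{n+2} + z_{n+2}` for all `n ≥ 1`, and `z_m = 0` for odd
`m`. Let `μ = lim c_n^(1/n)` and `R = (5/μ + μ/5) / 2 = 1 + (5 - μ)² / (10 μ)`; `77/20 ≤ μ ≤ 5` and
`1 ≤ R ≤ 1.035`.
(2) For odd `n` the ratio `c_{n+1} / (μ c_n)` is at most `R + o(1)`, for even `n` it is at least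
`1/R - o(1)`, and for all `n` it is at most `R + o(1) + z_{n+2} / (10 μ c_n)`.
(3) If `z_{n+2} / c_n → 0`, then it is in `[1/R - o(1), R + o(1)]` for all `n`.
(4) If `c_n / (μ^n n^(γ-1))` tends to `A > 0` along the even `n` and to `B > 0` along the odd `n`, then
`A ≤ R B`. -/
theorem result :
    (∀ n : ℕ, 1 ≤ n → 10 * c (n + 1) ≤ 25 * c n + c (n + 2) + z (n + 2)) ∧
    (∀ m : ℕ, Odd m → z m = 0) ∧
    ∃ μ : ℝ, 77 / 20 ≤ μ ∧ μ ≤ 5 ∧
      Tendsto (fun n : ℕ => (c n : ℝ) ^ (1 / (n : ℝ))) atTop (𝓝 μ) ∧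
      ∃ R : ℝ, R = (5 / μ + μ / 5) / 2 ∧ R = 1 + (5 - μ) ^ 2 / (10 * μ) ∧ 1 ≤ R ∧ R ≤ 1.035 ∧
      (∀ δ : ℝ, 0 < δ →
        (∀ᶠ n : ℕ in atTop, Odd n → (c (n + 1) : ℝ) / (μ * c n) ≤ R + δ) ∧
        (∀ᶠ n : ℕ in atTop, Even n → 1 / R - δ ≤ (c (n + 1) : ℝ) / (μ * c n)) ∧
        ∀ᶠ n : ℕ in atTop, (c (n + 1) : ℝ) / (μ * c n) ≤ R + δ + z (n + 2) / (10 * μ * c n)) ∧
      (Tendsto (fun n : ℕ => (z (n + 2) : ℝ) / c n) atTop (𝓝 0) → ∀ δ : ℝ, 0 < δ →
        ∀ᶠ n : ℕ in atTop, 1 / R - δ ≤ (c (n + 1) : ℝ) / (μ * c n) ∧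
          (c (n + 1) : ℝ) / (μ * c n) ≤ R + δ) ∧
      ∀ γ A B : ℝ, 0 < A → 0 < B →
        Tendsto (fun k : ℕ => (c (2 * k) : ℝ) / (μ ^ (2 * k) * ((2 * k : ℕ) : ℝ) ^ (γ - 1)))
          atTop (𝓝 A) →
        Tendsto (fun k : ℕ => (c (2 * k + 1) : ℝ) / (μ ^ (2 * k + 1) *
          ((2 * k + 1 : ℕ) : ℝ) ^ (γ - 1))) atTop (𝓝 B) → A ≤ R * B := by
  have hmu : (77 : ℝ) / 20 ≤ TH966.KO.μ := TH966.KO.mu_ge
  have hmu5 := TH966.KO.mu_le
  have hC : ∀ n, c n = TH966.KO.c n := c_eq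
  have hpos : ∀ n, (0 : ℝ) < c n := fun n => by
    rw [hC]; exact TH966.KO.c_pos n
  have hr : Tendsto (fun n : ℕ => (c (n + 2) : ℝ) / c n) atTop (𝓝 (TH966.KO.μ ^ 2)) := by
    simpa only [hC] using Pool.Agent.Zk60.SW.ratio_tendsto
  set μ := TH966.KO.μ with hμdef
  have hμ : 0 < μ := by linarith
  have hR : (5 / μ + μ / 5) / 2 = 1 + (5 - μ) ^ 2 / (10 * μ) := by
    field_simp
    ring
  have hR1 : 1 ≤ (5 / μ + μ / 5) / 2 := by
    rw [hR]
    have : 0 ≤ (5 - μ) ^ 2 / (10 * μ) := by positivity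
    linarith
  have hR0 : 0 < (5 / μ + μ / 5) / 2 := by linarith
  have hR2 : (5 / μ + μ / 5) / 2 ≤ 1.035 := by
    rw [hR]
    have : (5 - μ) ^ 2 / (10 * μ) ≤ 0.035 := by
      rw [div_le_iff₀ (by positivity)]
      nlinarith
    linarith
  have hbas : ∀ n : ℕ, 1 ≤ n → 10 * (c (n + 1) : ℝ) ≤ 25 * c n + c (n + 2) + z (n + 2) := by
    intro n hn
    exact_mod_cast basic n hn
  have hup := fun δ hδ => seq (c := fun n => (c n : ℝ)) (z := fun n => (z n : ℝ)) hμ hpos hbas hr δ hδ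
  have hodd : ∀ δ : ℝ, 0 < δ → ∀ᶠ n : ℕ in atTop, Odd n →
      (c (n + 1) : ℝ) / (μ * c n) ≤ (5 / μ + μ / 5) / 2 + δ := by
    intro δ hδ
    filter_upwards [hup δ hδ] with n hn ho
    have h0 : z (n + 2) = 0 := z_odd _ (by obtain ⟨a, rfl⟩ := ho; exact ⟨a + 1, by ring⟩)
    simp only [h0, Nat.cast_zero, zero_div, add_zero] at hn
    exact hn
  refine ⟨basic, z_odd, μ, hmu, hmu5, ?_, _, rfl, hR, hR1, hR2, ?_, ?_, ?_⟩
  · simpa only [hC] using TH966.KO.tend
  · intro δ hδ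
    refine ⟨hodd δ hδ, ?_, hup δ hδ⟩
    obtain ⟨ε, hε, hinv⟩ := inv_bound hμ hR0 δ hδ
    have h1 := hodd ε hε
    have h2 := hr.eventually (lt_mem_nhds (show μ ^ 2 - ε < μ ^ 2 by linarith))
    filter_upwards [(tendsto_add_atTop_nat 1).eventually h1, h2] with n h3 h4 he
    exact hinv _ _ _ (hpos n) (hpos (n + 1)) (hpos (n + 2)) h4.le (h3 he.add_one)
  · intro hz δ hδ
    have hall : ∀ ε : ℝ, 0 < ε → ∀ᶠ n : ℕ in atTop,
        (c (n + 1) : ℝ) / (μ * c n) ≤ (5 / μ + μ / 5) / 2 + ε := by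
      intro ε hε
      have h1 := hup (ε / 2) (by positivity)
      have h2 := hz.eventually (gt_mem_nhds (show (0 : ℝ) < ε / 2 * (10 * μ) by positivity))
      filter_upwards [h1, h2] with n h3 h4
      have h5 : (z (n + 2) : ℝ) / (10 * μ * c n) = (z (n + 2) : ℝ) / c n / (10 * μ) := by
        rw [div_div, mul_comm (c n : ℝ)]
      have h6 : (z (n + 2) : ℝ) / (10 * μ * c n) < ε / 2 := by
        rw [h5, div_lt_iff₀ (by positivity)]
        exact h4
      linarith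
    obtain ⟨ε, hε, hinv⟩ := inv_bound hμ hR0 δ hδ
    have h2 := hr.eventually (lt_mem_nhds (show μ ^ 2 - ε < μ ^ 2 by linarith))
    filter_upwards [hall δ hδ, (tendsto_add_atTop_nat 1).eventually (hall ε hε), h2] with n h3 h4 h5
    exact ⟨hinv _ _ _ (hpos n) (hpos (n + 1)) (hpos (n + 2)) h5.le h4, h3⟩
  · intro γ A B hA hB h1 h2
    -- the ratio along the odd numbers
    have h3 : Tendsto (fun k : ℕ => (c (2 * k + 1 + 1) : ℝ) / (μ * c (2 * k + 1))) atTop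
        (𝓝 (A / B)) := by
      have h4 : Tendsto (fun k : ℕ => (c (2 * (k + 1)) : ℝ) / (μ ^ (2 * (k + 1)) *
          ((2 * (k + 1) : ℕ) : ℝ) ^ (γ - 1))) atTop (𝓝 A) := h1.comp (tendsto_add_atTop_nat 1)
      have h5 : Tendsto (fun k : ℕ => ((((2 * (k + 1) : ℕ) : ℝ)) / ((2 * k + 1 : ℕ) : ℝ)) ^ (γ - 1))
          atTop (𝓝 1) := by
        have h6 : Tendsto (fun k : ℕ => (((2 * (k + 1) : ℕ) : ℝ)) / ((2 * k + 1 : ℕ) : ℝ)) atTop
            (𝓝 1) := by
          have h7 : Tendsto (fun k : ℕ => (1 : ℝ) + 1 / ((2 * k + 1 : ℕ) : ℝ)) atTop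
              (𝓝 (1 + 0)) := by
            refine tendsto_const_nhds.add ?_
            refine tendsto_const_nhds.div_atTop ?_
            refine tendsto_natCast_atTop_atTop.comp ?_
            exact tendsto_atTop_mono (fun k => show k ≤ 2 * k + 1 by omega) tendsto_id
          rw [add_zero] at h7
          refine h7.congr fun k => ?_
          have : (0 : ℝ) < ((2 * k + 1 : ℕ) : ℝ) := by positivity
          field_simp
          push_cast
          ring
        have h8 := h6.rpow_const (p := γ - 1) (Or.inl one_ne_zero)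
        rwa [Real.one_rpow] at h8
      have h6 := (h4.div h2 hB.ne').mul h5
      rw [mul_one] at h6
      refine h6.congr fun k => ?_
      simp only [Pi.div_apply]
      have e1 : (0 : ℝ) < ((2 * (k + 1) : ℕ) : ℝ) := by positivity
      have e2 : (0 : ℝ) < ((2 * k + 1 : ℕ) : ℝ) := by positivity
      have e3 := Real.rpow_pos_of_pos e1 (γ - 1)
      have e4 := Real.rpow_pos_of_pos e2 (γ - 1)
      have e5 := hpos (2 * k + 1)
      rw [Real.div_rpow e1.le e2.le]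
      have e6 : μ ^ (2 * (k + 1)) = μ ^ (2 * k + 1) * μ := by ring
      rw [e6]
      have e7 : (0 : ℝ) < μ ^ (2 * k + 1) := by positivity
      have e8 : 2 * (k + 1) = 2 * k + 1 + 1 := by ring
      rw [e8] at e3 ⊢
      field_simp
    have h4 : A / B ≤ (5 / μ + μ / 5) / 2 := by
      refine le_of_forall_pos_le_add fun δ hδ => ?_
      refine le_of_tendsto h3 ?_
      have h5 : Tendsto (fun k : ℕ => 2 * k + 1) atTop atTop :=
        tendsto_atTop_mono (fun k => show k ≤ 2 * k + 1 by omega) tendsto_id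
      filter_upwards [h5.eventually (hodd δ hδ)] with k hk
      exact hk ⟨k, rfl⟩
    rwa [div_le_iff₀ hB] at h4

end Pool.Agent.Results.MP_794e6e_pr.ParityOscillation
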