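import Pool.Agent.Zk87.SW.Mult
import Pool.Agent.R956.K5
import Pool.Agent.N929.EG.Three
import Pool.Agent.N546.EG.CNT3
import Pool.Agent.H46R2.K3.EQ

/-!
# Self-avoiding walks on `ℤ³`: asymptotic expansions at sparse lengths hold at all lengths, to every
# order; extrapolation of their numbers with superpolynomial accuracy
-/

set_option autoImplicit false

namespace Pool.Agent.Results.MP_794e6e_pr.SparseExpansions

open Filter Topology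

/-- the number of `n`-step self-avoiding walks on `ℤ³` from the origin -/
noncomputable def c (n : ℕ) : ℕ :=
  Nat.card {f : Fin (n + 1) → (Fin 3 → ℤ) // f 0 = 0 ∧ Function.Injective f ∧
    ∀ i : Fin n, ∑ j : Fin 3, |f i.succ j - f i.castSucc j| = 1}

/-- `S` is a set of lengths whose gaps are at most `n^(1/3 - ε)`, in both parity classes: for all
large `n` some element of `S` of the same parity as `n` is in `[n, n + n^(1/3 - ε)]` -/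
def Gaps (S : Set ℕ) (ε : ℝ) : Prop := ∀ᶠ n : ℕ in atTop, ∃ m ∈ S, m % 2 = n % 2 ∧ n ≤ m ∧
  (m : ℝ) ≤ n + (n : ℝ) ^ (1 / 3 - ε)

/-- `H` is a finite sum `b_1 x^(-θ_1) + … + b_m x^(-θ_m)` with exponents `θ_i > 0` -/
def Corrections (H : ℝ → ℝ) : Prop := ∃ (m : ℕ) (b θ : Fin m → ℝ), (∀ i, 0 < θ i) ∧
  ∀ x : ℝ, 0 < x → H x = ∑ i, b i * x ^ (-θ i)

open Pool.Agent.Zk87.SW in
theorem facts : ∃ K : ℝ, 0 ≤ K ∧ Diffs (fun n => Real.log ((c n : ℝ) / TH966.KO.μ ^ n)) K := by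
  have hcn : ∀ n, (c n : ℝ) = (TH966.KO.c n : ℝ) := fun n =>
    congrArg _ (Pool.Agent.H46R2.K3.P.card_eq n)
  obtain ⟨K, hK, h⟩ := Pool.Agent.N929.EG.count3 Pool.Agent.N546.EG.cnt3
  refine ⟨K, hK, fun r hr => ?_⟩
  obtain ⟨C, hC, h⟩ := h r hr
  refine ⟨C, hC, fun n hn => ?_⟩
  simp only [hcn]
  exact h n hn

/-- **Theorem.** Let `c_n` be the number of `n`-step self-avoiding walks on `ℤ³`, `μ = lim c_n^(1/n)`.
(1) For all `ε, R > 0` there are `r ≥ 2` and `N` such that for all `n ≥ N`, all integers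
`1 ≤ M ≤ n^(1/3 - ε)` and all lengths `t_0, …, t_(r-1)` of the same parity as `n` with
`n + 8 i M ≤ t_i ≤ n + 8 i M + 4 M`,
`|log c_n - ∑ w_i log c_(t_i)| ≤ n^(-R)`, where `w_i = ∏_{m ≠ i} (t_m - n) / (t_m - t_i)`.
(2) Let `S` be a set of lengths with gaps at most `n^(1/3 - ε)` in both parity classes, `ε > 0`. For
each parity `p` let `A_p > 0` and let `H_p` be a finite sum of negative powers. If
`c_n / (μ^n n^(γ-1)) = A_p (1 + H_p(n)) + O(n^(-R))` for the `n` in `S` (`p` the parity of `n`), where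
`R > 0`, then the same is true for all `n`. -/
theorem result : ∃ μ : ℝ, 77 / 20 ≤ μ ∧ μ ≤ 5 ∧
    Tendsto (fun n : ℕ => (c n : ℝ) ^ (1 / (n : ℝ))) atTop (𝓝 μ) ∧
    (∀ ε R : ℝ, 0 < ε → 0 < R → ∃ r N : ℕ, 2 ≤ r ∧ ∀ n : ℕ, N ≤ n → ∀ M : ℕ, 1 ≤ M →
      (M : ℝ) ≤ (n : ℝ) ^ (1 / 3 - ε) → ∀ t : ℕ → ℕ,
      (∀ i < r, t i % 2 = n % 2 ∧ n + 8 * i * M ≤ t i ∧ t i ≤ n + 8 * i * M + 4 * M) →
      |Real.log (c n) - ∑ i ∈ Finset.range r, (∏ m ∈ (Finset.range r).erase i,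
        ((t m : ℝ) - n) / ((t m : ℝ) - t i)) * Real.log (c (t i))| ≤ (n : ℝ) ^ (-R)) ∧
    (∀ (ε R γ : ℝ) (S : Set ℕ) (A : ℕ → ℝ) (H : ℕ → ℝ → ℝ), 0 < ε → 0 < R → Gaps S ε →
      (∀ p : ℕ, p ≤ 1 → 0 < A p ∧ Corrections (H p)) →
      (∃ E : ℝ, ∀ᶠ n : ℕ in atTop, n ∈ S →
        |(c n : ℝ) / (μ ^ n * (n : ℝ) ^ (γ - 1)) - A (n % 2) * (1 + H (n % 2) n)| ≤
          E * (n : ℝ) ^ (-R)) →
      ∃ E : ℝ, ∀ᶠ n : ℕ in atTop,
        |(c n : ℝ) / (μ ^ n * (n : ℝ) ^ (γ - 1)) - A (n % 2) * (1 + H (n % 2) n)| ≤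
          E * (n : ℝ) ^ (-R)) := by
  have hcn : ∀ n, (c n : ℝ) = (TH966.KO.c n : ℝ) := fun n =>
    congrArg _ (Pool.Agent.H46R2.K3.P.card_eq n)
  have hμ : (0 : ℝ) < TH966.KO.μ := by linarith [TH966.KO.mu_one]
  have hc0 : ∀ n, (0 : ℝ) < c n := fun n => by
    rw [hcn]
    exact TH966.KO.c_pos n
  obtain ⟨K, hK, hD⟩ := facts
  refine ⟨TH966.KO.μ, TH966.KO.mu_ge, TH966.KO.mu_le, ?_, fun ε R hε hR => ?_, ?_⟩
  · simp only [hcn]
    exact TH966.KO.tend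
  · refine Pool.Agent.Zk87.SW.extrapolate (l := fun n => Real.log (c n))
      (ν := Real.log TH966.KO.μ) hK hD (fun n => ?_) hε hR
    rw [Real.log_div (hc0 n).ne' (pow_pos hμ n).ne', Real.log_pow]
    ring
  · intro ε R γ S A H hε hR hS hH h
    have e : ∀ n : ℕ, (c n : ℝ) / (TH966.KO.μ ^ n * (n : ℝ) ^ (γ - 1)) =
        Real.exp (Real.log ((c n : ℝ) / TH966.KO.μ ^ n)) / (n : ℝ) ^ (γ - 1) := fun n => by
      rw [Real.exp_log (div_pos (hc0 n) (pow_pos hμ n)), div_div]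
    simp only [e] at h ⊢
    refine Pool.Agent.Zk87.SW.transfer_mul hK hD (fun p hp => ⟨(hH p hp).1, ?_⟩) hε hR hS h
    obtain ⟨m, b, θ, h1, h2⟩ := (hH p hp).2
    exact ⟨Fin m, inferInstance, b, θ, h1, h2⟩

end Pool.Agent.Results.MP_794e6e_pr.SparseExpansions
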